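import Pool.Agent.MP_bacbeb_nt.Mg.Fin2

set_option autoImplicit false

namespace Pool.Agent.Results.MP_bacbeb_nt.FinitePeriod

open Pool.Agent.MP_bacbeb_nt.Per

/-- With `f n = (φ n + ψ n) / 2`: for every period `k` and every `v ≥ 1` there are, up to scaling by
primes that divide all of the first `k` terms, only finitely many starting values `n` whose first
`k` terms are not `1` or prime powers and with `n ∣ v * f^[k] n`. -/
theorem result :
    ∀ f : ℕ → ℕ,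
      (∀ n : ℕ, f n = (Nat.totient n +
          ∏ p ∈ n.primeFactors, p ^ (n.factorization p - 1) * (p + 1)) / 2) →
      ∀ k v : ℕ, 1 ≤ k → 1 ≤ v → ∃ F : Finset ℕ,
        (∀ m ∈ F, 1 ≤ m ∧ (∀ j < k, f^[j] m ≠ 1 ∧ ¬ IsPrimePow (f^[j] m)) ∧ m ∣ v * f^[k] m) ∧
        ∀ n : ℕ, 1 ≤ n → (∀ j < k, f^[j] n ≠ 1 ∧ ¬ IsPrimePow (f^[j] n)) → n ∣ v * f^[k] n →
          ∃ m ∈ F, ∃ s : ℕ, (∀ j ≤ k, f^[j] n = s * f^[j] m) ∧
            ∀ p : ℕ, p.Prime → p ∣ s → ∀ j < k, p ∣ f^[j] m := by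
  intro f hf k v hk hv
  obtain rfl : f = avg := funext hf
  obtain ⟨F, h1, h2⟩ := finite_min k v hk (by omega)
  refine ⟨F, fun m hm => ?_, fun n hn h hd => ?_⟩
  · obtain ⟨a, b, c⟩ := h1 m hm
    exact ⟨Nat.pos_of_ne_zero a, (live_iff a).1 b, c⟩
  · have hn0 : n ≠ 0 := by omega
    have hl := (live_iff hn0).2 h
    obtain ⟨m, hm, ⟨s, hs⟩, e⟩ := h2 n hn0 hl hd
    obtain ⟨a, b, -⟩ := h1 m hm
    have sc := scale a hn0 b hl e (hs.trans (mul_comm _ _))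
    refine ⟨m, hm, s, sc, fun p hp hps j hj => ?_⟩
    have : p ∈ (avg^[j] n).primeFactors := Nat.mem_primeFactors.2
      ⟨hp, sc j hj.le ▸ hps.mul_right _, (iter_facts hn0 j (hl.mono hj.le)).1⟩
    exact Nat.dvd_of_mem_primeFactors (e j hj ▸ this)

end Pool.Agent.Results.MP_bacbeb_nt.FinitePeriod
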