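import Pool.Agent.MP_bacbeb_nt.Mg.Main

set_option autoImplicit false

namespace Pool.Agent.Results.MP_bacbeb_nt.SevenSmooth

/-- With `f n = (φ n + ψ n) / 2`, every starting value `2^a 3^b 5^c 7^e m` with `1 ≤ m ≤ 1000`
(arbitrary exponents) has an orbit that reaches `1` or a prime power, or meets the orbit of `1488`. -/
theorem result :
    ∀ f : ℕ → ℕ,
      (∀ n : ℕ, f n = (Nat.totient n +
          ∏ p ∈ n.primeFactors, p ^ (n.factorization p - 1) * (p + 1)) / 2) →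
      ∀ a b c e m : ℕ, 1 ≤ m → m ≤ 1000 →
        (∃ j : ℕ, f^[j] (2 ^ a * 3 ^ b * 5 ^ c * 7 ^ e * m) = 1 ∨
          IsPrimePow (f^[j] (2 ^ a * 3 ^ b * 5 ^ c * 7 ^ e * m))) ∨
        ∃ j k : ℕ, f^[j] (2 ^ a * 3 ^ b * 5 ^ c * 7 ^ e * m) = f^[k] 1488 := by
  intro f hf a b c e m h0 h1
  have : f = Pool.Agent.MP_bacbeb_nt.F := funext hf
  subst this
  exact Pool.Agent.MP_bacbeb_nt.good_smooth a b c e m h0 h1

end Pool.Agent.Results.MP_bacbeb_nt.SevenSmooth
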