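import Pool.Agent.MP_bacbeb_nt.Mg.WallD

set_option autoImplicit false

namespace Pool.Agent.Results.MP_bacbeb_nt.SmoothWall

/-- With `f n = (φ n + ψ n) / 2`: an orbit that never reaches `1` or a prime power and whose terms
have all their prime factors at most `B` is, from some index on, periodic up to a fixed multiplier
`2 ^ x * p ^ y ≥ 2` (like the orbit of `1488`, which doubles every seven steps). -/
theorem result :
    ∀ f : ℕ → ℕ,
      (∀ n : ℕ, f n = (Nat.totient n +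
          ∏ p ∈ n.primeFactors, p ^ (n.factorization p - 1) * (p + 1)) / 2) →
      ∀ n₀ B : ℕ, 1 ≤ n₀ →
        (∀ j : ℕ, f^[j] n₀ ≠ 1 ∧ ¬ IsPrimePow (f^[j] n₀)) →
        (∀ j r : ℕ, r.Prime → r ∣ f^[j] n₀ → r ≤ B) →
        ∃ i k x y p : ℕ, 1 ≤ k ∧ p.Prime ∧ 2 ≤ 2 ^ x * p ^ y ∧
          ∀ s : ℕ, i ≤ s → f^[s + k] n₀ = 2 ^ x * p ^ y * f^[s] n₀ := by
  intro f hf n₀ B h0 h1 hB
  have : f = Pool.Agent.MP_bacbeb_nt.F := funext hf
  subst this
  exact Pool.Agent.MP_bacbeb_nt.Wall.smooth_wall (by omega) h1 hB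

end Pool.Agent.Results.MP_bacbeb_nt.SmoothWall
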